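import Pool.Agent.helper43.TG.Spec

set_option autoImplicit false

namespace Pool.Agent.helper43.TG

theorem t_deg (h : KGR) : DEG := by
  intro n N x hN hNN
  classical
  obtain ⟨_, hub⟩ := h n
  apply hub
  refine ⟨N.image (fun y => y - x), ⟨?_, ?_⟩, ?_⟩
  · intro z hz
    obtain ⟨y, hy, rfl⟩ := Finset.mem_image.1 hz
    rw [← dist_eq_norm]
    exact hN y hy
  · intro z hz z' hz' hne
    obtain ⟨y, hy, rfl⟩ := Finset.mem_image.1 hz
    obtain ⟨y', hy', rfl⟩ := Finset.mem_image.1 hz'
    rw [dist_sub_right]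
    apply hNN y hy y' hy'
    rintro rfl
    exact hne rfl
  · exact Finset.card_image_of_injective _ sub_left_injective

end Pool.Agent.helper43.TG
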