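import Pool.Agent.helper43.TG.Spec

set_option autoImplicit false

namespace Pool.Agent.helper43.TG

open scoped RealInnerProductSpace

theorem WEL_exp {ι α : Type} [Fintype ι] (J : Finset α) (T : α → ι → ℝ) :
    ∑ i ∈ J, ∑ j ∈ J, (∑ a, T i a * T j a) ^ 2 = ∑ a, ∑ b, (∑ i ∈ J, T i a * T i b) ^ 2 := by
  have h1 : ∀ i j, (∑ a, T i a * T j a) ^ 2 = ∑ a, ∑ b, (T i a * T i b) * (T j a * T j b) := by
    intro i j
    rw [sq, Finset.sum_mul_sum]
    refine Finset.sum_congr rfl fun a _ => Finset.sum_congr rfl fun b _ => ?_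
    ring
  have h2 : ∀ a b, (∑ i ∈ J, T i a * T i b) ^ 2 =
      ∑ i ∈ J, ∑ j ∈ J, (T i a * T i b) * (T j a * T j b) := by
    intro a b
    rw [sq, Finset.sum_mul_sum]
  simp only [h1, h2]
  calc ∑ i ∈ J, ∑ j ∈ J, ∑ a, ∑ b, (T i a * T i b) * (T j a * T j b)
      = ∑ i ∈ J, ∑ a, ∑ j ∈ J, ∑ b, (T i a * T i b) * (T j a * T j b) :=
        Finset.sum_congr rfl fun i _ => Finset.sum_comm
    _ = ∑ a, ∑ i ∈ J, ∑ j ∈ J, ∑ b, (T i a * T i b) * (T j a * T j b) := Finset.sum_comm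
    _ = ∑ a, ∑ i ∈ J, ∑ b, ∑ j ∈ J, (T i a * T i b) * (T j a * T j b) :=
        Finset.sum_congr rfl fun a _ => Finset.sum_congr rfl fun i _ => Finset.sum_comm
    _ = ∑ a, ∑ b, ∑ i ∈ J, ∑ j ∈ J, (T i a * T i b) * (T j a * T j b) :=
        Finset.sum_congr rfl fun a _ => Finset.sum_comm

theorem t_wel (h : TEN) : WEL := by
  intro n J z
  constructor
  · intro l
    obtain ⟨ι, hι, T, _, hT⟩ := h n l
    have h1 : ∑ i ∈ J, ∑ j ∈ J, ⟪z i, z j⟫ ^ l = ∑ a, (∑ i ∈ J, T (z i) a) ^ 2 := by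
      have h2 : ∀ a, (∑ i ∈ J, T (z i) a) ^ 2 = ∑ i ∈ J, ∑ j ∈ J, T (z i) a * T (z j) a := by
        intro a
        rw [sq, Finset.sum_mul_sum]
      simp only [h2, hT]
      calc ∑ i ∈ J, ∑ j ∈ J, ∑ a, T (z i) a * T (z j) a
          = ∑ i ∈ J, ∑ a, ∑ j ∈ J, T (z i) a * T (z j) a :=
            Finset.sum_congr rfl fun i _ => Finset.sum_comm
        _ = ∑ a, ∑ i ∈ J, ∑ j ∈ J, T (z i) a * T (z j) a := Finset.sum_comm
    rw [h1]
    exact Finset.sum_nonneg fun a _ => sq_nonneg _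
  · intro p hz
    obtain ⟨ι, hι, T, hcard, hT⟩ := h n p
    have h1 : ∑ i ∈ J, ∑ j ∈ J, ⟪z i, z j⟫ ^ (2 * p) =
        ∑ a, ∑ b, (∑ i ∈ J, T (z i) a * T (z i) b) ^ 2 := by
      rw [← WEL_exp J (fun i => T (z i))]
      refine Finset.sum_congr rfl fun i _ => Finset.sum_congr rfl fun j _ => ?_
      rw [← hT, ← pow_mul, mul_comm]
    have h2 : ∑ a, (∑ i ∈ J, T (z i) a * T (z i) a) ^ 2 ≤
        ∑ a, ∑ b, (∑ i ∈ J, T (z i) a * T (z i) b) ^ 2 := by
      refine Finset.sum_le_sum fun a _ => ?_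
      exact Finset.single_le_sum (f := fun b => (∑ i ∈ J, T (z i) a * T (z i) b) ^ 2)
        (fun b _ => sq_nonneg _) (Finset.mem_univ a)
    have h3 : ∑ a, ∑ i ∈ J, T (z i) a * T (z i) a = (J.card : ℝ) := by
      rw [Finset.sum_comm]
      have h4 : ∀ i ∈ J, ∑ a, T (z i) a * T (z i) a = 1 := by
        intro i hi
        rw [← hT, real_inner_self_eq_norm_sq, hz i hi]
        simp
      rw [Finset.sum_congr rfl h4]
      simp
    have h5 := sq_sum_le_card_mul_sum_sq (s := (Finset.univ : Finset ι))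
      (f := fun a => ∑ i ∈ J, T (z i) a * T (z i) a)
    rw [h3, Finset.card_univ, hcard] at h5
    rw [h1]
    refine h5.trans ?_
    exact mul_le_mul_of_nonneg_left h2 (Nat.cast_nonneg _)

end Pool.Agent.helper43.TG
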